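import Pool.Agent.CRS.All

/-!
MP_1bb14d_al: all critical rings in the variety of rings given by the identity `x^3 = x^n`, for every
`n ≥ 4`.
-/

namespace Pool.Agent.Results.MP_1bb14d_al.AllCritical

open Pool.Agent.CRR Pool.Agent.CRN Pool.Agent.CRL Pool.Agent.CRM Pool.Agent.CRP Pool.Agent.CRQ
open Pool.Agent.CRS (CenE NilE)

/-- Let `n ≥ 4` and let `R` be a finite ring (associative, identity not assumed) which satisfies
`x^3 = x^n`.  Let `J = {x | x^3 = 0}` (`Nl`), which is the radical if `R / J(R)` is commutative.  Then `R` is
critical if and only if one of the following holds.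

(1) `R` is isomorphic to `M_2(F)` or `M_3(F)` for a finite field `F` (`MatType`), or to a ring
`[M_2(F) M; 0 D]`, `D = 0` or a field, `M` the least nonzero ideal (`TriType`), or to the opposite of such a
ring.

In all other cases the quotient of `R` by its radical is commutative (`¬ Twn R`: there are no `a, b` with
`a^2 = 0`, `a b a = a ≠ 0`), the order of `R` is a power of a prime `p`, and `R` has a least nonzero ideal `H`.

(2) `R` or its opposite is generated by a frame `t_1, ..., t_s` and few nil elements along a path (`PthType`):
loops `a_k` in `e_α R e_α` which commute with `t_α` and an arrow `z` with `a_(m-1) ... a_0 z ≠ 0` (`TyT`); two arrows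
`z, z'` with `z z' ≠ 0` (`TyV`); loops and arrows `x, y` with `a_(m-1) ... a_0 x y ≠ 0` (`TyL`); three arrows with
`x y z ≠ 0` (`TyE`).

(3) `R` is a local ring with identity, generated by a frame `t`, which is not central, and few nil elements
which satisfy `x t = t^c x` (`Twl`): the same paths at one vertex, `p^k a_(v-1) ... a_0 z`, `p^k a_(v-1) ... a_0 x y`,
`x y z` nonzero elements of `H`.

(4) The order of `R` is prime to 6, and `R` is nilpotent (`NilT`) or a local ring with identity and a central
frame (`CenT`), `R` is generated by `g` nil elements (and `t`), and one of the following functions of `g`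
arguments has values in `H`, is not zero, depends only on the arguments modulo `J^2 + p R`, and is zero if two
arguments are equal (`s_k` the standard polynomial, the coefficients are integers, for local rings
integral combinations of powers of `t`): `m s_g`; `a x_i s_g + b s_g x_i`; `m x_i^2 s_g`; `a x^2 y^2 + b x y x y`, `m x^2 y x y`
(`g = 2`); `m x_i s_4` (`g = 5`); `a x_i s_4 + b x_i^2 s_3` (`g = 4`).  Or `R` is generated by `t`.

(5) `p` is 2 or 3, and `R` is nilpotent (`NilE`) or a local ring with identity and a central frame (`CenE`), `R` is
generated by `g` nil elements (and `t`), and for a list `B_1, B_2, ...` of combinations of words in the letters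
`x_0, ..., x_(g-1)`, given by `Tbl p g`, and coefficients `c_i` (integers, for local rings integral combinations of
powers of `t`) the function `f = ∑ c_i B_i` has values in `H`, is not zero, depends only on the arguments modulo
`J^2 + p R`, and is zero if the arguments (and `t`) do not generate `R`.  Here all words in the `B_i` contain all
the letters and have length at most 6 (`p = 2`) or 5 (`p = 3`), so that `g ≤ 6` or `g ≤ 5`, or the list is one of the
explicit lists of `Tb2` (for `p = 2`, `g ≥ 6`, at most 7 combinations of words), `Ta5` (`p = 2`, `g = 5`, one word) and `Td3` (for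
`p = 3`, at most 8 combinations of words).  Or `R` is generated by `t`.

The details are in the docstrings of the definitions. -/
theorem result (n : ℕ) (hn : 4 ≤ n) (R : Type) [NonUnitalRing R] [Finite R] (hM : InM n R) :
    Critical R ↔ MatType R 2 ∨ MatType R 3 ∨ TriType R ∨ TriType Rᵐᵒᵖ ∨
      (¬ Twn R ∧ (PthType R n ∨ PthType Rᵐᵒᵖ n ∨ Twl R n ∨
        ((Nat.card R).Coprime 6 ∧ (CenT R n ∨ NilT R)) ∨ CenE R n ∨ NilE R)) :=
  Pool.Agent.CRS.all n hn R hM

end Pool.Agent.Results.MP_1bb14d_al.AllCritical
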