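import Pool.Agent.CRR.Asm2
import Pool.Agent.CRR.Primary
import Pool.Agent.CRR.NilOrUnit
import Pool.Agent.CRR.Local
import Pool.Agent.CRR.Poly
import Pool.Agent.CRR.ExtOdd
import Pool.Agent.CRR.ExtTwo
import Pool.Agent.CRR.Two2
import Pool.Agent.CRR.DetU
import Pool.Agent.CRR.DetN
import Pool.Agent.CRR.Teich2
import Pool.Agent.CRR.Wk
import Pool.Agent.CRR.Soc
import Pool.Agent.CRR.SocN
import Pool.Agent.CRR.Pow2
import Pool.Agent.CRR.Pair2
import Pool.Agent.CRR.Gen2
import Pool.Agent.CRR.Fwd2
import Pool.Agent.CRR.FwdN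
import Pool.Agent.CRR.Dim2
import Pool.Agent.CRR.DimN
import Pool.Agent.CRR.Prod2
import Pool.Agent.CRR.Kap2
import Pool.Agent.CRR.Van2
import Pool.Agent.CRR.VanN
import Pool.Agent.CRR.Crit2
import Pool.Agent.CRR.CritN
import Pool.Agent.CRR.Exc2
import Pool.Agent.CRR.RedA
import Pool.Agent.CRR.RedB
import Pool.Agent.CRR.RedC
import Pool.Agent.CRR.RedN
import Pool.Agent.CRR.Nilp2

/-!
MP_1bb14d_al: for every `n ≥ 4`, all commutative critical rings in the variety of rings given by
the identity `x^3 = x^n`.
-/

namespace Pool.Agent.Results.MP_1bb14d_al.Commutative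

open Pool.Agent.CRR

/-- Let `n ≥ 4` and let `R` be a finite commutative ring (identity not assumed) which satisfies
`x^3 = x^n`.  Then `R` is critical if and only if it is of one of the types in `CritType`:
nilpotent (`NilpType`), local with identity (`LocType`), or the exceptional ring of order 16
(`ExcType`). -/
theorem result (n : ℕ) (hn : 4 ≤ n) (R : Type) [NonUnitalCommRing R] [Finite R]
    (hM : InM n R) : Critical R ↔ CritType R :=
  ⟨fun hc => asm2_forward primary nil_or_unit local_of_critical (wk teich2)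
      (det poly extodd exttwo two) (fwd2 (wk teich2) pow2 pair2 gen2) (redA soc two)
      (redB (wk teich2) soc gen2 dim2 two) (redC (wk teich2) soc gen2 dim2 two)
      (detN poly extodd exttwo two) (fwdN pair2) (redN socN dimN two) nilp2 n hn R hc hM,
    asm2_backward (van2 (wk teich2) pow2 soc dim2 prod2 kap2 two) (vanN socN dimN prod2 kap2 two)
      (crit2 teich2) critN exc2 nilp2 n hn R hM⟩

end Pool.Agent.Results.MP_1bb14d_al.Commutative
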